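import Pool.Agent.Helper71.DS.Par
import Pool.Agent.Helper71.DS.Shf

/-! MP_ec2393_nt: the linearized Kashiwara-Vergne space and the linearized double shuffle space (both
with `x₀` and `x₁` exchanged) in the layers with four and with five letters `x₀`. The first one
contains the lowest parts of the elements of the double shuffle Lie algebra `dm`. -/

set_option autoImplicit false

namespace Pool.Agent.Results.MP_ec2393_nt.KashiwaraVergneLayers

open Pool.Agent.H777R4.DM Pool.Agent.Helper71.DS
open Pool.Agent.Q299.LK (zz zz_append zz_cons part)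
open Pool.Agent.Results.MP_ec2393_nt.LowestLetterPart

attribute [local instance 100] LieRing.ofAssociativeRing

/-- The list of all shuffles of two lists. -/
def shf : List ℕ → List ℕ → List (List ℕ)
  | [], l => [l]
  | a :: l, [] => [a :: l]
  | a :: l, b :: l' => (shf l (b :: l')).map (fun t => a :: t) ++
      (shf (a :: l) l').map (fun t => b :: t)
termination_by l l' => l.length + l'.length

/-- The linearized double shuffle space with `x₀` and `x₁` exchanged: the elements `P` of the free
Lie algebra, homogeneous of weight `N` and with exactly `m` letters `x₀` in each word, whose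
coefficients satisfy the shuffle relations in the exponents of `x₁`: for every `n` and all nonempty
lists `a`, `b` of exponents, the sum of the coefficients of the words `x₁ⁿ x₀ x₁^{c₁} ⋯ x₀ x₁^{c_k}`
over the shuffles `c` of `a` and `b` is `0`. Here `zz [c₁, …, c_k] = x₀ x₁^{c₁} ⋯ x₀ x₁^{c_k}`. -/
def LS (N m : ℕ) : Submodule ℚ A where
  carrier := {P | P ∈ LieX ∧ (∀ u, co P u ≠ 0 → u.length = N ∧ u.count 0 = m) ∧
    ∀ (n : ℕ) (a b : List ℕ), a ≠ [] → b ≠ [] →
      ((shf a b).map fun l => co P (List.replicate n 1 ++ zz l)).sum = 0}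
  add_mem' := by
    rintro P Q ⟨h1, h2, h3⟩ ⟨h1', h2', h3'⟩
    refine ⟨LieX.add_mem h1 h1', fun u hu => ?_, fun n a b ha hb => ?_⟩
    · rw [co_add] at hu
      by_cases h : co P u = 0
      · refine h2' u fun h' => hu ?_
        rw [h, h', add_zero]
      · exact h2 u h
    · simp only [co_add]
      rw [List.sum_map_add, h3 n a b ha hb, h3' n a b ha hb, add_zero]
  zero_mem' := ⟨LieX.zero_mem, fun u hu => absurd (co_zero u) hu, fun n a b _ _ => by
    simp [co_zero]⟩
  smul_mem' := by
    rintro c P ⟨h1, h2, h3⟩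
    refine ⟨LieX.smul_mem c h1, fun u hu => h2 u fun h' => hu ?_, fun n a b ha hb => ?_⟩
    · rw [co_smul, h', mul_zero]
    · simp only [co_smul]
      rw [List.sum_map_mul_left, h3 n a b ha hb, mul_zero]

section

variable {P : A} {N m : ℕ}

theorem shf_len : ∀ (k : ℕ) (a b : List ℕ), a.length + b.length = k → ∀ l ∈ shf a b,
    l.length = k := by
  intro k
  induction k with
  | zero =>
    intro a b h l hl
    rcases a with _ | ⟨x, a⟩
    · rw [shf] at hl
      simp at hl h
      rw [hl]
      simpa using h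
    · simp at h
  | succ k ih =>
    intro a b h l hl
    rcases a with _ | ⟨x, a⟩
    · rw [shf] at hl
      simp at hl h
      rw [hl]
      simpa using h
    · rcases b with _ | ⟨y, b⟩
      · rw [shf] at hl
        simp at hl h
        rw [hl]
        simpa using h
      · rw [shf, List.mem_append, List.mem_map, List.mem_map] at hl
        rcases hl with ⟨t, ht, rfl⟩ | ⟨t, ht, rfl⟩
        · rw [List.length_cons, ih a (y :: b) (by simp at h ⊢; omega) t ht]
        · rw [List.length_cons, ih (x :: a) b (by simp at h ⊢; omega) t ht]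

theorem lkv_le_of (hP : P ∈ LKV N m)
    (h : ∀ (n : ℕ) (a b : List ℕ), a ≠ [] → b ≠ [] → a.length + b.length = m →
      ((shf a b).map fun l => co P (W (n :: l))).sum = 0) : P ∈ LS N m := by
  refine ⟨hP.1, hP.2.1, fun n a b ha hb => ?_⟩
  by_cases hm : a.length + b.length = m
  · exact h n a b ha hb hm
  · apply List.sum_eq_zero
    intro y hy
    rw [List.mem_map] at hy
    obtain ⟨l, hl, rfl⟩ := hy
    by_contra h0
    have h1 := (hP.2.1 _ h0).2
    have h2 := shf_len _ a b rfl l hl
    rw [List.count_append, zz_count0, List.count_replicate] at h1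
    simp at h1
    omega

theorem len4 {l : List ℕ} (h : l.length = 4) : ∃ a b c d, l = [a, b, c, d] := by
  rcases l with _ | ⟨a, _ | ⟨b, _ | ⟨c, _ | ⟨d, _ | ⟨e, l⟩⟩⟩⟩⟩ <;> simp at h
  exact ⟨a, b, c, d, rfl⟩

theorem ls2 (hP : P ∈ LKV N 2) : P ∈ LS N 2 := by
  refine lkv_le_of hP fun n a b ha hb hm => ?_
  have h1 := List.length_pos_iff.2 ha
  have h2 := List.length_pos_iff.2 hb
  obtain ⟨x, rfl⟩ := List.length_eq_one_iff.1 (show a.length = 1 by omega)
  obtain ⟨y, rfl⟩ := List.length_eq_one_iff.1 (show b.length = 1 by omega)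
  have h := circW hP n [x, y] (by simp)
  simp [Finset.sum_range_succ, List.rotate] at h
  simp [shf]
  linarith

theorem ls3 (hP : P ∈ LKV N 3) : P ∈ LS N 3 := by
  refine lkv_le_of hP fun n a b ha hb hm => ?_
  have h1 := List.length_pos_iff.2 ha
  have h2 := List.length_pos_iff.2 hb
  have key := g12 (fun a b c d => co P (W [a, b, c, d]))
    (fun a b c d => (W_rot hP.2.2.1 [a, b, c, d] (by simp)).symm)
    (fun x a b c => by
      have h := circW hP x [a, b, c] (by simp)
      simp [Finset.sum_range_succ, List.rotate] at h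
      linarith)
  have h3 : (a.length = 1 ∧ b.length = 2) ∨ (a.length = 2 ∧ b.length = 1) := by omega
  rcases h3 with ⟨ha', hb'⟩ | ⟨ha', hb'⟩
  · obtain ⟨x, rfl⟩ := List.length_eq_one_iff.1 ha'
    obtain ⟨y, w, rfl⟩ := List.length_eq_two.1 hb'
    have h := key n x y w
    simp [shf]
    linarith
  · obtain ⟨x, rfl⟩ := List.length_eq_one_iff.1 hb'
    obtain ⟨y, w, rfl⟩ := List.length_eq_two.1 ha'
    have h := key n x y w
    simp [shf]
    linarith

theorem ls4 (hP : P ∈ LKV N 4) : P ∈ LS N 4 := by
  rcases Nat.even_or_odd N with hN | hN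
  · refine lkv_le_of hP fun n a b ha hb hm => ?_
    have h1 := List.length_pos_iff.2 ha
    have h2 := List.length_pos_iff.2 hb
    have hC : ∀ a b c d e, co P (W [a, b, c, d, e]) = co P (W [b, c, d, e, a]) :=
      fun a b c d e => (W_rot hP.2.2.1 [a, b, c, d, e] (by simp)).symm
    have hZ : ∀ x a b c d, co P (W [x, a, b, c, d]) + co P (W [x, b, c, d, a]) +
        co P (W [x, c, d, a, b]) + co P (W [x, d, a, b, c]) = 0 := by
      intro x a b c d
      have h := circW hP x [a, b, c, d] (by simp)
      simp [Finset.sum_range_succ, List.rotate] at h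
      linarith
    have k1 := g13 (fun a b c d e => co P (W [a, b, c, d, e])) hC hZ
    have k2 := g22 (fun a b c d e => co P (W [a, b, c, d, e])) hC
      (fun a b c d e => by
        have h := revW hP a [b, c, d, e]
        rw [(hN.add_one).neg_one_pow] at h
        simpa using h) hZ
    have h3 : (a.length = 1 ∧ b.length = 3) ∨ (a.length = 2 ∧ b.length = 2) ∨
      (a.length = 3 ∧ b.length = 1) := by omega
    rcases h3 with ⟨ha', hb'⟩ | ⟨ha', hb'⟩ | ⟨ha', hb'⟩
    · obtain ⟨x, rfl⟩ := List.length_eq_one_iff.1 ha'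
      obtain ⟨y, w, v, rfl⟩ := List.length_eq_three.1 hb'
      have h := k1 n x y w v
      simp [shf]
      linarith
    · obtain ⟨x, x', rfl⟩ := List.length_eq_two.1 ha'
      obtain ⟨y, y', rfl⟩ := List.length_eq_two.1 hb'
      have h := k2 n x x' y y'
      simp [shf]
      linarith
    · obtain ⟨x, rfl⟩ := List.length_eq_one_iff.1 hb'
      obtain ⟨y, w, v, rfl⟩ := List.length_eq_three.1 ha'
      have h := k1 n x y w v
      simp [shf]
      linarith
  · rw [parity4 hP hN]
    exact (LS N 4).zero_mem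

theorem ls5 (hP : P ∈ LKV N 5) (hN : Odd N) : P ∈ LS N 5 := by
  refine lkv_le_of hP fun n a b ha hb hm => ?_
  have h1 := List.length_pos_iff.2 ha
  have h2 := List.length_pos_iff.2 hb
  have hC : ∀ a b c d e f, co P (W [a, b, c, d, e, f]) = co P (W [b, c, d, e, f, a]) :=
    fun a b c d e f => (W_rot hP.2.2.1 [a, b, c, d, e, f] (by simp)).symm
  have hZ : ∀ x a b c d e, co P (W [x, a, b, c, d, e]) + co P (W [x, b, c, d, e, a]) +
      co P (W [x, c, d, e, a, b]) + co P (W [x, d, e, a, b, c]) +
      co P (W [x, e, a, b, c, d]) = 0 := by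
    intro x a b c d e
    have h := circW hP x [a, b, c, d, e] (by simp)
    simp [Finset.sum_range_succ, List.rotate] at h
    linarith
  have k1 := g14 (fun a b c d e f => co P (W [a, b, c, d, e, f])) hC hZ
  have k2 := g23 (fun a b c d e f => co P (W [a, b, c, d, e, f])) hC
    (fun a b c d e f => by
      have h := revW hP a [b, c, d, e, f]
      rw [(hN.add_one).neg_one_pow] at h
      simpa using h) hZ
  have h3 : (a.length = 1 ∧ b.length = 4) ∨ (a.length = 2 ∧ b.length = 3) ∨
    (a.length = 3 ∧ b.length = 2) ∨ (a.length = 4 ∧ b.length = 1) := by omega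
  rcases h3 with ⟨ha', hb'⟩ | ⟨ha', hb'⟩ | ⟨ha', hb'⟩ | ⟨ha', hb'⟩
  · obtain ⟨x, rfl⟩ := List.length_eq_one_iff.1 ha'
    obtain ⟨y, w, v, t, rfl⟩ := len4 hb'
    have h := k1 n x y w v t
    simp [shf]
    linarith
  · obtain ⟨x, x', rfl⟩ := List.length_eq_two.1 ha'
    obtain ⟨y, y', y'', rfl⟩ := List.length_eq_three.1 hb'
    have h := k2 n x x' y y' y''
    simp [shf]
    linarith
  · obtain ⟨x, x', rfl⟩ := List.length_eq_two.1 hb'
    obtain ⟨y, y', y'', rfl⟩ := List.length_eq_three.1 ha'
    have h := k2 n x x' y y' y''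
    simp [shf]
    linarith
  · obtain ⟨x, rfl⟩ := List.length_eq_one_iff.1 hb'
    obtain ⟨y, w, v, t, rfl⟩ := len4 ha'
    have h := k1 n x y w v t
    simp [shf]
    linarith

theorem ls01 (hP : P ∈ LKV N m) (hm : m ≤ 1) : P ∈ LS N m := by
  refine lkv_le_of hP fun n a b ha hb hab => ?_
  have h1 := List.length_pos_iff.2 ha
  have h2 := List.length_pos_iff.2 hb
  omega

theorem ls (h : m ≤ 4 ∨ (m = 5 ∧ Odd N)) : LKV N m ≤ LS N m := by
  intro P hP
  rcases h with h | ⟨rfl, h⟩
  · obtain h0 | rfl | rfl | rfl : m ≤ 1 ∨ m = 2 ∨ m = 3 ∨ m = 4 := by omega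
    · exact ls01 hP h0
    · exact ls2 hP
    · exact ls3 hP
    · exact ls4 hP
  · exact ls5 hP h

end

/-! ### the other inclusion -/

/-- first letter `x`, then a shuffle of `a` and `b` -/
def V (F : List ℕ → ℚ) (a : List ℕ) (x : ℕ) (b : List ℕ) : ℚ :=
  ((shf a b).map fun l => F (x :: l)).sum

theorem shf_nil_right (a : List ℕ) : shf a [] = [a] := by
  rcases a with _ | ⟨x, a⟩ <;> rw [shf]

theorem V_step (F : List ℕ → ℚ)
    (hF : ∀ a b : List ℕ, a ≠ [] → b ≠ [] → ((shf a b).map F).sum = 0)
    (a : List ℕ) (x y : ℕ) (b : List ℕ) : V F a x (y :: b) = - V F (x :: a) y b := by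
  have h := hF (x :: a) (y :: b) (by simp) (by simp)
  rw [shf, List.map_append, List.map_map, List.map_map, List.sum_append] at h
  have h' : V F a x (y :: b) + V F (x :: a) y b = 0 := h
  linarith

/-- a word with a chosen letter `x` as a combination of words which begin with `x` -/
theorem V_eq (F : List ℕ → ℚ)
    (hF : ∀ a b : List ℕ, a ≠ [] → b ≠ [] → ((shf a b).map F).sum = 0) :
    ∀ (b a : List ℕ) (x : ℕ), V F a x b = (-1) ^ b.length * F (b.reverse ++ x :: a) := by
  intro b
  induction b with
  | nil =>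
    intro a x
    simp [V, shf_nil_right]
  | cons y b ih =>
    intro a x
    rw [V_step F hF, ih, List.reverse_cons, List.append_assoc, List.length_cons, pow_succ]
    simp

theorem mantar (F : List ℕ → ℚ)
    (hF : ∀ a b : List ℕ, a ≠ [] → b ≠ [] → ((shf a b).map F).sum = 0) (x : ℕ) (b : List ℕ) :
    F (b.reverse ++ [x]) = (-1) ^ b.length * F (x :: b) := by
  have h := V_eq F hF b [] x
  have h1 : V F [] x b = F (x :: b) := by simp [V, shf]
  rw [h1] at h
  rw [h, ← mul_assoc, ← mul_pow]
  simp

/-- the alternating sum over the splittings of a list -/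
theorem antipode : ∀ (n : ℕ) (t : List ℕ), t.length = n + 1 → ∀ G : List ℕ → ℚ,
    ∑ j ∈ Finset.range (n + 2), (-1) ^ (n + 1 - j) *
      ((shf (t.take j) (t.drop j).reverse).map G).sum = 0 := by
  intro n
  induction n with
  | zero =>
    intro t ht G
    obtain ⟨y, rfl⟩ := List.length_eq_one_iff.1 ht
    simp [Finset.sum_range_succ, shf]
  | succ n ih =>
    intro t ht G
    obtain ⟨y, t', rfl⟩ : ∃ y t', t = y :: t' := by
      rcases t with _ | ⟨y, t'⟩
      · simp at ht
      · exact ⟨y, t', rfl⟩
    have ht' : t'.length = n + 1 := by simpa using ht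
    obtain ⟨s, z, rfl⟩ : ∃ s z, t' = s ++ [z] := by
      have h0 : t' ≠ [] := by rintro rfl; simp at ht'
      exact ⟨t'.dropLast, t'.getLast h0, (List.dropLast_append_getLast h0).symm⟩
    have hs : s.length = n := by simpa using ht'
    have hA := ih (s ++ [z]) ht' (fun w => G (y :: w))
    have hB := ih (y :: s) (by simp [hs]) (fun w => G (z :: w))
    have mid : ∀ i ∈ Finset.range (n + 1), (-1 : ℚ) ^ (n + 1 + 1 - (i + 1)) *
        ((shf ((y :: (s ++ [z])).take (i + 1)) ((y :: (s ++ [z])).drop (i + 1)).reverse).map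
          G).sum =
        (-1) ^ (n + 1 - i) * ((shf ((s ++ [z]).take i) ((s ++ [z]).drop i).reverse).map
          (fun w => G (y :: w))).sum -
        (-1) ^ (n + 1 - (i + 1)) * ((shf ((y :: s).take (i + 1))
          ((y :: s).drop (i + 1)).reverse).map (fun w => G (z :: w))).sum := by
      intro i hi
      rw [Finset.mem_range] at hi
      have e1 : (s ++ [z]).take i = s.take i := List.take_append_of_le_length (by omega)
      have e2 : ((s ++ [z]).drop i).reverse = z :: (s.drop i).reverse := by
        rw [List.drop_append_of_le_length (by omega), List.reverse_append]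
        rfl
      rw [List.take_succ_cons, List.drop_succ_cons, List.take_succ_cons, List.drop_succ_cons,
        e1, e2, shf, List.map_append, List.map_map, List.map_map, List.sum_append,
        show n + 1 + 1 - (i + 1) = n + 1 - i by omega,
        show n + 1 - i = (n + 1 - (i + 1)) + 1 by omega, pow_succ]
      simp only [Function.comp_def]
      ring
    rw [Finset.sum_range_succ', Finset.sum_range_succ, Finset.sum_congr rfl mid,
      Finset.sum_sub_distrib]
    rw [Finset.sum_range_succ] at hA
    rw [Finset.sum_range_succ'] at hB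
    have l1 : (s ++ [z]).take (n + 1) = s ++ [z] := List.take_of_length_le (by omega)
    have l2 : (s ++ [z]).drop (n + 1) = [] := List.drop_eq_nil_of_le (by omega)
    have l3 : (y :: (s ++ [z])).take (n + 1 + 1) = y :: (s ++ [z]) := by
      rw [List.take_succ_cons, l1]
    have l4 : (y :: (s ++ [z])).drop (n + 1 + 1) = [] := by
      rw [List.drop_succ_cons, l2]
    rw [l1, l2] at hA
    rw [l3, l4]
    simp only [List.take_zero, List.drop_zero, List.reverse_nil, shf_nil_right, Nat.sub_self,
      pow_zero, one_mul, Nat.sub_zero, List.map_cons, List.map_nil, List.sum_cons, List.sum_nil,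
      add_zero, List.reverse_cons, List.reverse_append, shf] at hA hB ⊢
    simp only [List.nil_append, List.cons_append] at hA hB ⊢
    rw [pow_succ (-1 : ℚ) (n + 1)]
    linarith

/-- the sums over the rotations -/
theorem circ_of (F : List ℕ → ℚ)
    (hF : ∀ a b : List ℕ, a ≠ [] → b ≠ [] → ((shf a b).map F).sum = 0) (l : List ℕ)
    (hl : 2 ≤ l.length) : ∑ i ∈ Finset.range l.length, F (l.rotate i) = 0 := by
  obtain ⟨x, t, rfl⟩ : ∃ x t, l = x :: t := by
    rcases l with _ | ⟨x, t⟩
    · simp at hl
    · exact ⟨x, t, rfl⟩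
  obtain ⟨n, hn⟩ : ∃ n, t.length = n + 1 := ⟨t.length - 1, by simp at hl; omega⟩
  have key := antipode n t hn (fun w => F (x :: w))
  have h1 : ∀ i ∈ Finset.range (n + 2), F ((x :: t).rotate (i + 1)) = (-1) ^ (n + 1 - i) *
      ((shf (t.take i) (t.drop i).reverse).map (fun w => F (x :: w))).sum := by
    intro i hi
    rw [Finset.mem_range] at hi
    have h2 := V_eq F hF (t.drop i).reverse (t.take i) x
    rw [List.reverse_reverse, List.length_reverse, List.length_drop, hn] at h2
    rw [List.rotate_eq_drop_append_take (by rw [List.length_cons]; omega), List.drop_succ_cons,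
      List.take_succ_cons]
    have h3 : V F (t.take i) x (t.drop i).reverse =
      ((shf (t.take i) (t.drop i).reverse).map (fun w => F (x :: w))).sum := rfl
    rw [← h3, h2, ← mul_assoc, ← mul_pow]
    simp
  rw [← Finset.sum_congr rfl h1, Finset.sum_range_succ] at key
  rw [List.length_cons, hn, Finset.sum_range_succ']
  have h4 : (x :: t).rotate (n + 1 + 1) = x :: t := by
    rw [← hn, ← List.length_cons (a := x), List.rotate_length]
  rw [h4] at key
  rw [List.rotate_zero]
  exact key

section

variable {P : A} {N m : ℕ}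

theorem ls_shf (hP : P ∈ LS N m) (n : ℕ) (a b : List ℕ) (ha : a ≠ []) (hb : b ≠ []) :
    ((shf a b).map fun l => co P (W (n :: l))).sum = 0 := hP.2.2 n a b ha hb

theorem ls_rot (hP : P ∈ LS N m) (x : ℕ) (l : List ℕ) (hl : l.length = m) (hm : 1 ≤ m) :
    co P (W (l ++ [x])) = (-1) ^ (N + m) * co P (W (x :: l)) := by
  obtain ⟨y, t, hy⟩ : ∃ y t, l = y :: t := by
    rcases l with _ | ⟨y, t⟩
    · simp at hl; omega
    · exact ⟨y, t, rfl⟩
  have h1 := mantar (fun l => co P (W (x :: l))) (ls_shf hP x) y t
  have e1 : t.reverse ++ [y] = l.reverse := by rw [hy, List.reverse_cons]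
  rw [e1, ← hy] at h1
  have h2 := taskTwoB P hP.1 (W (x :: l.reverse))
  rw [← W_reverse, List.reverse_cons, List.reverse_reverse] at h2
  rw [h2]
  by_cases h0 : co P (W (x :: l.reverse)) = 0
  · rw [h0] at h1
    rw [h0, mul_zero]
    have h3 : (-1 : ℚ) ^ t.length ≠ 0 := pow_ne_zero _ (by norm_num)
    have h4 : co P (W (x :: l)) = 0 := by
      rcases mul_eq_zero.1 h1.symm with h | h
      · exact absurd h h3
      · exact h
    rw [h4, mul_zero]
  · rw [(hP.2.1 _ h0).1, h1, ← mul_assoc, ← pow_add]
    congr 1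
    have h5 : t.length + 1 = m := by rw [← hl, hy, List.length_cons]
    rw [← h5]
    congr 1
    omega

theorem ls_rot' (hP : P ∈ LS N m) (hm : 1 ≤ m) (L : List ℕ) (hL : L.length = m + 1) :
    co P (W (L.rotate 1)) = (-1) ^ (N + m) * co P (W L) := by
  obtain ⟨x, l, rfl⟩ : ∃ x l, L = x :: l := by
    rcases L with _ | ⟨x, l⟩
    · simp at hL
    · exact ⟨x, l, rfl⟩
  have e : (x :: l).rotate 1 = l ++ [x] := by simp
  rw [e]
  exact ls_rot hP x l (by simpa using hL) hm

theorem ls_rots (hP : P ∈ LS N m) (hm : 1 ≤ m) (k : ℕ) (L : List ℕ) (hL : L.length = m + 1) :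
    co P (W (L.rotate k)) = ((-1) ^ (N + m)) ^ k * co P (W L) := by
  induction k with
  | zero => rw [List.rotate_zero, pow_zero, one_mul]
  | succ k ih =>
    rw [← List.rotate_rotate, ls_rot' hP hm _ (by rw [List.length_rotate, hL]), ih, pow_succ]
    ring

theorem ls_le (hm : 2 ≤ m) (hN : Even (N + m)) : LS N m ≤ LKV N m := by
  intro P hP
  refine ⟨hP.1, hP.2.1, fun u v => ?_, fun n l hl => ?_⟩
  · by_cases hc : (u ++ 0 :: v).count 0 = m
    · obtain ⟨a, l1, hu, h1⟩ := W_surj u
      obtain ⟨b, l2, hv, h2⟩ := W_surj v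
      have hc' : l1.length + l2.length + 1 = m := by
        rw [h1, h2, ← hc, List.count_append, List.count_cons_self]
        omega
      have h3 := ls_rots hP (by omega) (a :: l1).length (a :: l1 ++ b :: l2) (by
        simp; omega)
      rw [List.rotate_append_length_eq, hN.neg_one_pow, one_pow, one_mul, W_append, W_append,
        ← hu, ← hv] at h3
      exact h3.symm
    · have hc' : (v ++ 0 :: u).count 0 ≠ m := by
        intro h
        apply hc
        rw [← h]
        simp [List.count_append]
        omega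
      rw [not_not.1 fun h => hc (hP.2.1 _ h).2, not_not.1 fun h => hc' (hP.2.1 _ h).2]
  · by_cases h : l.length = m
    · exact circ_of (fun l => co P (List.replicate n 1 ++ zz l)) (hP.2.2 n) l (by omega)
    · refine Finset.sum_eq_zero fun i _ => ?_
      by_contra h0
      have h1 := (hP.2.1 _ h0).2
      rw [List.count_append, zz_count0, List.count_replicate, List.length_rotate] at h1
      simp at h1
      exact h h1

theorem ls_bot (hm : 1 ≤ m) (hm2 : Even m) (hN : Odd N) : LS N m = ⊥ := by
  rw [eq_bot_iff]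
  intro P hP
  rw [Submodule.mem_bot]
  refine Pool.Agent.Q299.LK.co_ext fun u => ?_
  rw [co_zero]
  by_contra h0
  obtain ⟨-, h2⟩ := hP.2.1 u h0
  obtain ⟨a, l, hu, hl⟩ := W_surj u
  have hL : (a :: l).length = m + 1 := by simp; omega
  have h := ls_rots hP hm (m + 1) (a :: l) hL
  have e : (a :: l).rotate (m + 1) = a :: l := by rw [← hL, List.rotate_length]
  rw [e, (hN.add_even hm2).neg_one_pow, hm2.add_one.neg_one_pow, ← hu] at h
  apply h0
  linarith

end

/-- `LKV N m` is the linearized Kashiwara-Vergne space and `LS N m` the linearized double shuffle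
space, both in weight `N` with exactly `m` letters `x₀` in each word (`x₀` and `x₁` are exchanged
with respect to the usual convention).
(1) In the layer with four letters the two spaces are equal for every weight `N`, and they are zero
if `N` is odd.
(2) In the layer with five letters they are equal for every odd weight `N`.
(3) `LKV N m` is contained in `LS N m` for `m ≤ 4`, and it is zero if `2 ≤ m ≤ 4` and `N + m` is odd.
(4) `LS N m` is contained in `LKV N m` if `m ≥ 2` and `N + m` is even. -/
theorem result :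
    (∀ N : ℕ, LKV N 4 = LS N 4 ∧ (Odd N → LKV N 4 = ⊥)) ∧
    (∀ N : ℕ, Odd N → LKV N 5 = LS N 5) ∧
    (∀ N m : ℕ, m ≤ 4 → LKV N m ≤ LS N m ∧ (2 ≤ m → Odd (N + m) → LKV N m = ⊥)) ∧
    (∀ N m : ℕ, 2 ≤ m → Even (N + m) → LS N m ≤ LKV N m) := by
  have hbot : ∀ N m : ℕ, 2 ≤ m → m ≤ 4 → Odd (N + m) → LKV N m = ⊥ := by
    intro N m h2 h4 hN
    rw [eq_bot_iff]
    intro P hP
    rw [Submodule.mem_bot]
    exact parity hP h2 h4 hN
  refine ⟨fun N => ⟨?_, fun hN => ?_⟩, fun N hN => ?_, fun N m h4 => ⟨ls (Or.inl h4),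
    fun h2 hN => hbot N m h2 h4 hN⟩, fun N m h2 hN => ls_le h2 hN⟩
  · rcases Nat.even_or_odd N with hN | hN
    · exact le_antisymm (ls (Or.inl le_rfl)) (ls_le (by norm_num) (hN.add (by decide)))
    · rw [ls_bot (by norm_num) (by decide) hN, hbot N 4 (by norm_num) le_rfl
        (hN.add_even (by decide))]
  · exact hbot N 4 (by norm_num) le_rfl (hN.add_even (by decide))
  · exact le_antisymm (ls (Or.inr ⟨rfl, hN⟩)) (ls_le (by norm_num) (hN.add_odd (by decide)))

end Pool.Agent.Results.MP_ec2393_nt.KashiwaraVergneLayers
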