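import Pool.Agent.Helper71.DS.Three

/-! MP_ec2393_nt: the coefficients of the words with two blocks of `x₁` in the elements of the double
shuffle Lie algebra with the fewest letters `x₀`. -/

set_option autoImplicit false

namespace Pool.Agent.Results.MP_ec2393_nt.TwoBlockCoefficients

open Polynomial
open Pool.Agent.H777R4.DM Pool.Agent.Helper71.DS
open Pool.Agent.Q299.LK (zz zz_append zz_cons part co_part)
open Pool.Agent.Results.MP_ec2393_nt.LowestLetterPart

/-- The coefficient of the word `x₁^i x₀^a x₁^j x₀^b`. -/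
noncomputable def blk (ψ : A) (i a j b : ℕ) : ℚ :=
  co ψ (List.replicate i 1 ++ (List.replicate a 0 ++ (List.replicate j 1 ++ List.replicate b 0)))

/-- The coefficient of the word `x₁^i x₀ x₁^j x₀ x₁^k x₀^b`. -/
noncomputable def blk3 (ψ : A) (i j k b : ℕ) : ℚ :=
  co ψ (List.replicate i 1 ++ 0 :: (List.replicate j 1 ++ 0 :: (List.replicate k 1 ++
    List.replicate b 0)))

/-- The polynomial `∑ (ψ | x₁^i x₀ x₁^j x₀^{m-1}) tⁱ` over `i + j = N - m`. -/
noncomputable def pol (N m : ℕ) (ψ : A) : ℚ[X] :=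
  ∑ i ∈ Finset.range (N - m + 1), C (blk ψ i 1 (N - m - i) (m - 1)) * X ^ i

theorem zz_rep (n : ℕ) : zz (List.replicate n 0) = List.replicate n 0 := by
  induction n with
  | zero => rfl
  | succ n ih => rw [List.replicate_succ, zz_cons, ih]; simp [List.replicate_succ]

theorem W_blk (i a j b : ℕ) : W (i :: List.replicate a 0 ++ j :: List.replicate b 0) =
    List.replicate i 1 ++ (List.replicate (a + 1) 0 ++
      (List.replicate j 1 ++ List.replicate b 0)) := by
  rw [List.cons_append, W, zz_append, zz_rep, zz_cons, zz_rep, List.replicate_add]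
  simp

theorem blk_W (ψ : A) (i a j b : ℕ) : blk ψ i (a + 1) j b =
    co ψ (W (i :: List.replicate a 0 ++ j :: List.replicate b 0)) := by
  rw [W_blk]
  rfl

theorem blk_W1 (ψ : A) (i j b : ℕ) : blk ψ i 1 j b =
    co ψ (W (i :: j :: List.replicate b 0)) := blk_W ψ i 0 j b

section

variable {P : A} {N m : ℕ}

theorem blk_swap (hP : P ∈ LKV N m) (hm : 1 ≤ m) (i j : ℕ) :
    blk P j 1 i (m - 1) = (-1) ^ (m - 1) * blk P i 1 j (m - 1) := by
  rw [blk_W1, blk_W1]
  exact co_two_swap hP hm i j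

theorem blk_deg (hP : P ∈ LKV N m) (hm : 1 ≤ m) (i j : ℕ) (h : i + j + m ≠ N) :
    blk P i 1 j (m - 1) = 0 := by
  by_contra h0
  have h1 := (hP.2.1 _ h0).1
  simp at h1
  omega

theorem blk_zero (hP : P ∈ LKV N m) (hm : 1 ≤ m) (i : ℕ) : blk P i 1 0 (m - 1) = 0 := by
  have h := circW hP i (List.replicate m 0) (by
    intro h
    have := congrArg List.length h
    simp at this
    omega)
  simp only [List.rotate_replicate, Finset.sum_const, Finset.card_range, List.length_replicate,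
    nsmul_eq_mul] at h
  have h2 : (m : ℚ) ≠ 0 := by positivity
  have h3 : co P (W (i :: List.replicate m 0)) = 0 := by
    rcases mul_eq_zero.1 h with h | h
    · exact absurd h h2
    · exact h
  rw [blk_W1, ← List.replicate_succ, show m - 1 + 1 = m by omega]
  exact h3

theorem pol_pp (hP : P ∈ LKV N m) (hm : 1 ≤ m) (hN : m ≤ N) :
    pp P m (X : ℚ[X]) 1 = pol N m P := by
  unfold pp
  rw [GP_Sm (len_le hP)]
  have e1 : ((X : ℚ[X]) :: 1 :: List.replicate (m - 1) 0).map pw =
      pw X :: pw 1 :: List.replicate (m - 1) (dl 0) := by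
    simp [dl_zero]
  rw [e1]
  have e2 : ∀ (c : List ℕ → ℚ[X]), Sm N (List.replicate (m - 1) (dl 0)) c =
      c (List.replicate (m - 1) 0) := by
    intro c
    have h := Sm_dl N (List.replicate (m - 1) 0) c (by
      intro i hi
      rw [List.mem_replicate] at hi
      omega)
    rw [List.map_replicate] at h
    exact h
  simp only [Sm, e2, pw, one_pow, one_mul]
  have e3 : ∀ i ∈ Finset.range (N - m + 1), ∑ j ∈ Finset.range (N + 1),
      algebraMap ℚ ℚ[X] (co P (W (i :: j :: List.replicate (m - 1) 0))) =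
      C (blk P i 1 (N - m - i) (m - 1)) := by
    intro i hi
    rw [Finset.mem_range] at hi
    rw [Finset.sum_eq_single (N - m - i)]
    · rw [← blk_W1]
      rfl
    · intro j _ hj
      rw [← blk_W1, blk_deg hP hm i j (by omega), map_zero]
    · intro h
      exfalso
      apply h
      rw [Finset.mem_range]
      omega
  unfold pol
  symm
  rw [← Finset.sum_subset (s₁ := Finset.range (N - m + 1)) (s₂ := Finset.range (N + 1))]
  · refine Finset.sum_congr rfl fun i hi => ?_
    rw [e3 i hi]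
    ring
  · intro i hi
    rw [Finset.mem_range] at hi ⊢
    omega
  · intro i _ hi
    rw [Finset.mem_range] at hi
    rw [Finset.sum_eq_zero, mul_zero]
    intro j _
    rw [← blk_W1, blk_deg hP hm i j (by omega), map_zero]

theorem pol_coeff (i : ℕ) (hi : i ≤ N - m) :
    (pol N m P).coeff i = blk P i 1 (N - m - i) (m - 1) := by
  unfold pol
  rw [finsetSum_coeff]
  simp only [coeff_C_mul_X_pow]
  rw [Finset.sum_ite_eq, if_pos (Finset.mem_range.2 (by omega))]

theorem odd_zero (hP : P ∈ LKV N m) (hm : 2 ≤ m) (hN : Odd (N + m)) (i j : ℕ) :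
    blk P i 1 j (m - 1) = 0 := by
  have h1 := co_two_swap hP (by omega) i j
  have h2 := co_two_rev hP hm i j
  rw [blk_W1]
  have h3 : (-1 : ℚ) ^ (N + 1) = - (-1) ^ (m - 1) := by
    rcases Nat.even_or_odd m with h | h
    · have hN' : Odd N := (Nat.odd_add.1 hN).2 h
      have hm' : Odd (m - 1) := by
        obtain ⟨k, hk⟩ := h
        exact ⟨k - 1, by omega⟩
      rw [hN'.add_one.neg_one_pow, hm'.neg_one_pow]
      norm_num
    · have hN' : Even N := (Nat.odd_add'.1 hN).1 h
      have hm' : Even (m - 1) := by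
        obtain ⟨k, hk⟩ := h
        exact ⟨k, by omega⟩
      rw [hN'.add_one.neg_one_pow, hm'.neg_one_pow]
  rw [h3] at h2
  have h4 : (-1 : ℚ) ^ (m - 1) ≠ 0 := pow_ne_zero _ (by norm_num)
  have h5 : (-1 : ℚ) ^ (m - 1) * co P (W (i :: j :: List.replicate (m - 1) 0)) = 0 := by linarith
  rcases mul_eq_zero.1 h5 with h | h
  · exact absurd h h4
  · exact h

theorem dvd_pol (hP : P ∈ LKV N m) (hm : 2 ≤ m) (hN : m ≤ N) :
    (X * (X ^ 2 - 1) ^ (m - 1) : ℚ[X]) ∣ pol N m P := by
  have hpp := pol_pp hP (by omega) hN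
  have h1 : (X - 1 : ℚ[X]) ^ (m - 1) ∣ pol N m P := by
    rw [← hpp]
    exact dvd_sub hP hm hN X 1
  have h2 : (X + 1 : ℚ[X]) ^ (m - 1) ∣ pol N m P := by
    rcases Nat.even_or_odd (N - m) with he | ho
    · have h := dvd_add hP hm hN (X : ℚ[X]) 1
      rw [pp_neg hP, he.neg_one_pow, hpp] at h
      have e : (2 ^ (m - 1) - 1) * pol N m P + 1 * pol N m P =
          C ((2 : ℚ) ^ (m - 1)) * pol N m P := by
        rw [C_pow]
        simp only [map_ofNat]
        ring
      rw [e] at h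
      exact (isUnit_C.2 (IsUnit.mk0 _ (by positivity))).dvd_mul_left.1 h
    · have h0 : pol N m P = 0 := by
        unfold pol
        refine Finset.sum_eq_zero fun i _ => ?_
        rw [odd_zero hP hm (by
          obtain ⟨k, hk⟩ := ho
          exact ⟨k + m, by omega⟩), C_0, zero_mul]
      rw [h0]
      exact dvd_zero _
  have h3 : (X : ℚ[X]) ∣ pol N m P := by
    rw [X_dvd_iff, pol_coeff 0 (Nat.zero_le _), blk_swap hP (by omega) (N - m - 0) 0,
      blk_zero hP (by omega), mul_zero]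
  have c1 : IsCoprime (X - 1 : ℚ[X]) (X + 1) :=
    ⟨C (-1 / 2), C (1 / 2), by
      have e1 : (C (-1 / 2) : ℚ[X]) = - C (1 / 2) := by rw [← C_neg]; norm_num
      have e2 : (C (1 / 2) : ℚ[X]) + C (1 / 2) = 1 := by rw [← C_add]; norm_num
      rw [e1]
      linear_combination e2⟩
  have c2 : IsCoprime (X : ℚ[X]) (X - 1) := ⟨1, -1, by ring⟩
  have c3 : IsCoprime (X : ℚ[X]) (X + 1) := ⟨-1, 1, by ring⟩
  have e : (X * (X ^ 2 - 1) ^ (m - 1) : ℚ[X]) = X * ((X - 1) ^ (m - 1) * (X + 1) ^ (m - 1)) := by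
    rw [← mul_pow]
    congr 2
    ring
  rw [e]
  exact (IsCoprime.mul_right (c2.pow_right) (c3.pow_right)).mul_dvd h3
    ((c1.pow).mul_dvd h1 h2)

theorem pol_coeff_big (i : ℕ) (hi : N - m < i) : (pol N m P).coeff i = 0 := by
  unfold pol
  rw [finsetSum_coeff]
  simp only [coeff_C_mul_X_pow]
  rw [Finset.sum_ite_eq, if_neg]
  rw [Finset.mem_range]
  omega

theorem pol_deg (hP : P ∈ LKV N m) (hm : 2 ≤ m) (hN : m < N) :
    (pol N m P).natDegree ≤ N - m - 1 := by
  rw [natDegree_le_iff_coeff_eq_zero]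
  intro k hk
  rcases Nat.lt_or_ge (N - m) k with h | h
  · exact pol_coeff_big k h
  · have hk' : k = N - m := by omega
    rw [hk', pol_coeff (N - m) le_rfl, Nat.sub_self]
    exact blk_zero hP (by omega) _

/-- `t (t² - 1)^k` -/
noncomputable def U (k : ℕ) : ℚ[X] := X * (X ^ 2 - 1) ^ k

theorem U_base : (X ^ 2 - 1 : ℚ[X]).Monic := by
  have := monic_X_pow_sub_C (1 : ℚ) (n := 2) (by norm_num)
  simpa using this

theorem U_monic (k : ℕ) : (U k).Monic := monic_X.mul (U_base.pow k)

theorem base_deg : (X ^ 2 - 1 : ℚ[X]).natDegree = 2 := by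
  have := natDegree_X_pow_sub_C (n := 2) (r := (1 : ℚ))
  simpa using this

theorem U_deg (k : ℕ) : (U k).natDegree = 2 * k + 1 := by
  unfold U
  rw [monic_X.natDegree_mul (U_base.pow k), natDegree_X, U_base.natDegree_pow, base_deg]
  ring

theorem refl_base : reflect 2 (X ^ 2 - 1 : ℚ[X]) = - (X ^ 2 - 1) := by
  have h1 : reflect 2 ((X : ℚ[X]) ^ 2) = X ^ 0 := by
    rw [reflect_monomial, revAt_le le_rfl]
  have h2 : reflect 2 (1 : ℚ[X]) = X ^ 2 := by
    have := reflect_monomial (R := ℚ) 2 0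
    rw [pow_zero, revAt_le (Nat.zero_le _)] at this
    exact this
  have h3 : reflect 2 ((X : ℚ[X]) ^ 2 - 1 + 1) = reflect 2 ((X : ℚ[X]) ^ 2 - 1) + reflect 2 1 :=
    reflect_add _ _ _
  rw [sub_add_cancel, h1, h2] at h3
  linear_combination -h3

theorem refl_pow (k : ℕ) : reflect (2 * k) ((X ^ 2 - 1 : ℚ[X]) ^ k) =
    (-1) ^ k * (X ^ 2 - 1) ^ k := by
  induction k with
  | zero =>
    have := reflect_monomial (R := ℚ) 0 0
    simp
  | succ k ih =>
    rw [pow_succ, show 2 * (k + 1) = 2 * k + 2 by ring, reflect_mul _ _ (by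
      rw [U_base.natDegree_pow, base_deg]; omega) (by rw [base_deg]), ih, refl_base]
    ring

theorem refl_U (k : ℕ) : reflect (2 * k + 2) (U k) = (-1) ^ k * U k := by
  have h1 : reflect 2 (X : ℚ[X]) = X := by
    have := reflect_monomial (R := ℚ) 2 1
    rw [revAt_le (by norm_num)] at this
    simpa using this
  unfold U
  rw [mul_comm X, reflect_mul _ _ (by rw [U_base.natDegree_pow, base_deg]; omega) (by simp),
    refl_pow, h1]
  ring

theorem refl_pol (hP : P ∈ LKV N m) (hm : 2 ≤ m) :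
    reflect (N - m) (pol N m P) = (-1) ^ (m - 1) * pol N m P := by
  ext i
  have e : ((-1 : ℚ[X]) ^ (m - 1) * pol N m P) = C ((-1) ^ (m - 1)) * pol N m P := by
    simp
  rw [coeff_reflect, e, coeff_C_mul]
  rcases Nat.lt_or_ge (N - m) i with h | h
  · rw [revAt_eq_self_of_lt h, pol_coeff_big i h, mul_zero]
  · rw [revAt_le h, pol_coeff _ (by omega), pol_coeff _ h, show N - m - (N - m - i) = i by omega]
    exact blk_swap hP (by omega) _ _

theorem factor (hP : P ∈ LKV N m) (hm : 2 ≤ m) (hN : m < N) : ∃ s : ℚ[X],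
    (s ≠ 0 → 3 * m ≤ N) ∧ s.natDegree ≤ N - 3 * m ∧
    (∀ i ≤ N - 3 * m, s.coeff i = s.coeff (N - 3 * m - i)) ∧
    pol N m P = X * (X ^ 2 - 1) ^ (m - 1) * s := by
  obtain ⟨s, hs⟩ := dvd_pol hP hm hN.le
  by_cases h0 : s = 0
  · refine ⟨0, fun h => absurd rfl h, by simp, fun i _ => by simp, ?_⟩
    rw [hs, h0]
  have hU : pol N m P = U (m - 1) * s := hs
  have hd := pol_deg hP hm hN
  rw [hU, (U_monic _).natDegree_mul' h0, U_deg] at hd
  have h3 : 3 * m ≤ N := by omega
  have hd' : s.natDegree ≤ N - 3 * m := by omega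
  refine ⟨s, fun _ => h3, hd', ?_, hs⟩
  have hr := refl_pol hP hm
  rw [hU, show N - m = 2 * (m - 1) + 2 + (N - 3 * m) by omega,
    reflect_mul _ _ (by rw [U_deg]; omega) hd', refl_U] at hr
  have h4 : reflect (N - 3 * m) s = s := by
    have h5 : ((-1 : ℚ[X]) ^ (m - 1) * U (m - 1)) ≠ 0 :=
      mul_ne_zero (pow_ne_zero _ (by norm_num)) (U_monic _).ne_zero
    apply mul_left_cancel₀ h5
    rw [hr]
    ring
  intro i hi
  have h6 := congrArg (fun p => p.coeff i) h4
  simp only [coeff_reflect] at h6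
  rw [revAt_le hi] at h6
  exact h6.symm

theorem small_zero (hP : P ∈ LKV N m) (hm : 2 ≤ m) (hN : N < 3 * m) (i j : ℕ) :
    blk P i 1 j (m - 1) = 0 := by
  by_cases hij : i + j + m = N
  · by_cases hlt : m < N
    · obtain ⟨s, h1, -, -, h4⟩ := factor hP hm hlt
      have h0 : s = 0 := by
        by_contra h
        have := h1 h
        omega
      rw [h0, mul_zero] at h4
      have h5 := pol_coeff (N := N) (m := m) (P := P) i (by omega)
      rw [h4, show N - m - i = j by omega] at h5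
      simpa using h5.symm
    · have hj : j = 0 := by omega
      rw [hj]
      exact blk_zero hP (by omega) i
  · exact blk_deg hP (by omega) i j hij

theorem determined (hP : P ∈ LKV N m) (hm : 2 ≤ m)
    (h : ∀ i, 1 ≤ i → i ≤ (N - 3 * m) / 2 + 1 → blk P i 1 (N - m - i) (m - 1) = 0) (i j : ℕ) :
    blk P i 1 j (m - 1) = 0 := by
  by_cases hij : i + j + m = N
  · by_cases hlt : 3 * m ≤ N
    · obtain ⟨s, -, h2, h3, h4⟩ := factor hP hm (by omega)
      set e := (N - 3 * m) / 2 + 1 with he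
      have h5 : (X : ℚ[X]) ^ (e + 1) ∣ pol N m P := by
        rw [X_pow_dvd_iff]
        intro k hk
        rw [pol_coeff k (by omega)]
        rcases Nat.eq_zero_or_pos k with rfl | hk0
        · rw [blk_swap hP (by omega) (N - m - 0) 0, blk_zero hP (by omega), mul_zero]
        · exact h k hk0 (by omega)
      have h6 : (X : ℚ[X]) ^ e ∣ (X ^ 2 - 1) ^ (m - 1) * s := by
        rw [h4, pow_succ', mul_assoc] at h5
        exact (mul_dvd_mul_iff_left X_ne_zero).1 h5
      have hc : IsCoprime ((X : ℚ[X]) ^ e) ((X ^ 2 - 1) ^ (m - 1)) := by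
        refine IsCoprime.pow ?_
        exact ⟨X, -1, by ring⟩
      have h7 : (X : ℚ[X]) ^ e ∣ s := hc.dvd_of_dvd_mul_left h6
      rw [X_pow_dvd_iff] at h7
      have h8 : s = 0 := by
        ext k
        rw [coeff_zero]
        rcases Nat.lt_or_ge (N - 3 * m) k with hk | hk
        · exact coeff_eq_zero_of_natDegree_lt (by omega)
        · rcases Nat.lt_or_ge k e with hke | hke
          · exact h7 k hke
          · rw [h3 k hk]
            exact h7 _ (by omega)
      rw [h8, mul_zero] at h4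
      have h9 := pol_coeff (N := N) (m := m) (P := P) i (by omega)
      rw [h4, show N - m - i = j by omega] at h9
      simpa using h9.symm
    · exact small_zero hP hm (by omega) i j
  · exact blk_deg hP (by omega) i j hij

theorem blk3_W (ψ : A) (i j k b : ℕ) : blk3 ψ i j k b =
    co ψ (W (i :: j :: k :: List.replicate b 0)) := by
  unfold blk3
  rw [W, zz_cons, zz_cons, zz_rep]

theorem blk3_swap (hP : P ∈ LKV N m) (hm : 2 ≤ m) (i j k : ℕ) :
    blk3 P k j i (m - 2) = (-1) ^ (m - 1) * blk3 P i j k (m - 2) := by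
  rw [blk3_W, blk3_W]
  exact co_three hP hm j k i

theorem blk3_zero (hP : P ∈ LKV N m) (hm : 2 ≤ m) (hN : Odd (N + m)) (i j k : ℕ) :
    blk3 P i j k (m - 2) = 0 := by
  rcases Nat.lt_or_ge m 3 with h3 | h3
  · have hm2 : m = 2 := by omega
    subst hm2
    rw [parity hP le_rfl (by norm_num) hN]
    exact co_zero _
  · have h1 := co_three hP hm j k i
    have h2 := co_three_rev hP h3 j k i
    rw [blk3_W]
    have h3 : (-1 : ℚ) ^ (N + 1) = - (-1) ^ (m - 1) := by
      rcases Nat.even_or_odd m with h | h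
      · have hN' : Odd N := (Nat.odd_add.1 hN).2 h
        have hm' : Odd (m - 1) := by
          obtain ⟨k, hk⟩ := h
          exact ⟨k - 1, by omega⟩
        rw [hN'.add_one.neg_one_pow, hm'.neg_one_pow]
        norm_num
      · have hN' : Even N := (Nat.odd_add'.1 hN).1 h
        have hm' : Even (m - 1) := by
          obtain ⟨k, hk⟩ := h
          exact ⟨k, by omega⟩
        rw [hN'.add_one.neg_one_pow, hm'.neg_one_pow]
    rw [h3] at h2
    have h4 : (-1 : ℚ) ^ (m - 1) ≠ 0 := pow_ne_zero _ (by norm_num)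
    have h5 : (-1 : ℚ) ^ (m - 1) * co P (W (i :: j :: k :: List.replicate (m - 2) 0)) = 0 := by
      linarith
    rcases mul_eq_zero.1 h5 with h | h
    · exact absurd h h4
    · exact h

end

/-- Let `m ≥ 2` and let `ψ` be an element of `dm` of weight `N` all of whose words contain at least
`m` letters `x₀` (or an element of the linearized Kashiwara-Vergne space `LKV N m`). Then, for the
words with exactly `m` letters `x₀`:
(1) `(ψ | x₁^i x₀^{a+1} x₁^j x₀^{m-1-a}) = (-1)^a C(m-1, a) (ψ | x₁^i x₀ x₁^j x₀^{m-1})`;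
(2) `(ψ | x₁^j x₀ x₁^i x₀^{m-1}) = (-1)^{m-1} (ψ | x₁^i x₀ x₁^j x₀^{m-1})`;
(3) the polynomial `∑_{i+j=N-m} (ψ | x₁^i x₀ x₁^j x₀^{m-1}) tⁱ` is `t (t² - 1)^{m-1} s(t)` with `s`
palindromic of degree at most `N - 3m`, and `s = 0` if `N < 3m`;
(4) hence all these coefficients vanish if `N < 3m`, and they vanish if `N + m` is odd;
(5) they are determined by those with `1 ≤ i ≤ (N-3m)/2 + 1`;
(6) `(ψ | x₁^k x₀ x₁^j x₀ x₁^i x₀^{m-2}) = (-1)^{m-1} (ψ | x₁^i x₀ x₁^j x₀ x₁^k x₀^{m-2})`, and these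
coefficients vanish if `N + m` is odd. -/
theorem result (N m : ℕ) (hm : 2 ≤ m) (ψ : A) (hψ : ψ ∈ Fil N m ∨ ψ ∈ LKV N m) :
    (∀ i j a : ℕ, a < m → blk ψ i (a + 1) j (m - 1 - a) =
      (-1) ^ a * ((m - 1).choose a : ℚ) * blk ψ i 1 j (m - 1)) ∧
    (∀ i j : ℕ, blk ψ j 1 i (m - 1) = (-1) ^ (m - 1) * blk ψ i 1 j (m - 1)) ∧
    (∃ s : ℚ[X], (s ≠ 0 → 3 * m ≤ N) ∧ s.natDegree ≤ N - 3 * m ∧
      (∀ i ≤ N - 3 * m, s.coeff i = s.coeff (N - 3 * m - i)) ∧
      pol N m ψ = X * (X ^ 2 - 1) ^ (m - 1) * s) ∧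
    (N < 3 * m ∨ Odd (N + m) → ∀ i j : ℕ, blk ψ i 1 j (m - 1) = 0) ∧
    ((∀ i, 1 ≤ i → i ≤ (N - 3 * m) / 2 + 1 → blk ψ i 1 (N - m - i) (m - 1) = 0) →
      ∀ i j : ℕ, blk ψ i 1 j (m - 1) = 0) ∧
    (∀ i j k : ℕ, blk3 ψ k j i (m - 2) = (-1) ^ (m - 1) * blk3 ψ i j k (m - 2)) ∧
    (Odd (N + m) → ∀ i j k : ℕ, blk3 ψ i j k (m - 2) = 0) := by
  obtain ⟨P, hP, hco⟩ : ∃ P ∈ LKV N m, ∀ u : List (Fin 2), u.count 0 = m → co ψ u = co P u := by
    rcases hψ with h | h
    · exact ⟨part m ψ, mem_lkv hm h, fun u hu => by rw [co_part, if_pos hu]⟩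
    · exact ⟨ψ, h, fun u _ => rfl⟩
  have e1 : ∀ i j a : ℕ, a < m → blk ψ i (a + 1) j (m - 1 - a) = blk P i (a + 1) j (m - 1 - a) := by
    intro i j a ha
    refine hco _ ?_
    simp [List.count_append, List.count_replicate]
    omega
  have e2 : ∀ i j : ℕ, blk ψ i 1 j (m - 1) = blk P i 1 j (m - 1) := fun i j => e1 i j 0 (by omega)
  have e3 : ∀ i j k : ℕ, blk3 ψ i j k (m - 2) = blk3 P i j k (m - 2) := by
    intro i j k
    refine hco _ ?_
    simp [List.count_append, List.count_replicate]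
    omega
  have e4 : pol N m ψ = pol N m P := by
    unfold pol
    simp only [e2]
  rw [e4]
  simp only [e2, e3]
  refine ⟨fun i j a ha => ?_, fun i j => blk_swap hP (by omega) i j, ?_, ?_,
    fun h i j => determined hP hm h i j, fun i j k => blk3_swap hP hm i j k,
    fun h i j k => blk3_zero hP hm h i j k⟩
  · rw [e1 i j a ha, blk_W, blk_W1]
    exact co_two hP (by omega) i j a (by omega)
  · by_cases hN : m < N
    · exact factor hP hm hN
    · refine ⟨0, fun h => absurd rfl h, by simp, fun i _ => by simp, ?_⟩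
      rw [mul_zero]
      unfold pol
      refine Finset.sum_eq_zero fun i _ => ?_
      rw [small_zero hP hm (by omega), C_0, zero_mul]
  · rintro (h | h) i j
    · exact small_zero hP hm h i j
    · exact odd_zero hP hm h i j

end Pool.Agent.Results.MP_ec2393_nt.TwoBlockCoefficients
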